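import Mathlib

/-!
# The equation `x² + A kⁿ = B` can have five solutions

For every `t ≥ 1` put `A = (64^(t+1) - 1)/9` and `B = 2^(18 t + 12) (A + 1)`.  The equations
`x² + A 2ⁿ = B` and `x² + A 4ⁿ = B` have at least five solutions in non-negative integers.
-/

set_option autoImplicit false

namespace Pool.Agent.Results.MP_ca3412_nt.FiveSolutions

/-- The number of pairs `(x, n)` of non-negative integers with `x² + A kⁿ = B`. -/
noncomputable def N (k A B : ℕ) : ℕ := {p : ℕ × ℕ | p.1 ^ 2 + A * k ^ p.2 = B}.ncard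

theorem finite_sols {k A B : ℕ} (hk : 2 ≤ k) (hA : 1 ≤ A) :
    {p : ℕ × ℕ | p.1 ^ 2 + A * k ^ p.2 = B}.Finite := by
  apply (Set.finite_Iic ((B, B) : ℕ × ℕ)).subset
  rintro ⟨x, n⟩ h
  change x ^ 2 + A * k ^ n = B at h
  have h1 : n < k ^ n := Nat.lt_pow_self (by omega)
  have h2 : k ^ n ≤ A * k ^ n := Nat.le_mul_of_pos_left _ (by omega)
  have h3 : x ≤ x ^ 2 := Nat.le_self_pow (by norm_num) x
  refine Prod.mk_le_mk.mpr ⟨?_, ?_⟩ <;> omega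

/-- five solutions with different exponents -/
theorem five_le {k A B : ℕ} (hk : 2 ≤ k) (hA : 1 ≤ A) {x₁ x₂ x₃ x₄ x₅ n₁ n₂ n₃ n₄ n₅ : ℕ}
    (h₁ : x₁ ^ 2 + A * k ^ n₁ = B) (h₂ : x₂ ^ 2 + A * k ^ n₂ = B) (h₃ : x₃ ^ 2 + A * k ^ n₃ = B)
    (h₄ : x₄ ^ 2 + A * k ^ n₄ = B) (h₅ : x₅ ^ 2 + A * k ^ n₅ = B)
    (l₁ : n₁ < n₂) (l₂ : n₂ < n₃) (l₃ : n₃ < n₄) (l₄ : n₄ < n₅) : 5 ≤ N k A B := by
  let S : Finset (ℕ × ℕ) := {(x₁, n₁), (x₂, n₂), (x₃, n₃), (x₄, n₄), (x₅, n₅)}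
  have hS : S.card = 5 := by
    have e1 : n₁ ≠ n₂ := by omega
    have e2 : n₁ ≠ n₃ := by omega
    have e3 : n₁ ≠ n₄ := by omega
    have e4 : n₁ ≠ n₅ := by omega
    have e5 : n₂ ≠ n₃ := by omega
    have e6 : n₂ ≠ n₄ := by omega
    have e7 : n₂ ≠ n₅ := by omega
    have e8 : n₃ ≠ n₄ := by omega
    have e9 : n₃ ≠ n₅ := by omega
    have e10 : n₄ ≠ n₅ := by omega
    simp only [S]
    rw [Finset.card_insert_of_notMem, Finset.card_insert_of_notMem, Finset.card_insert_of_notMem,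
      Finset.card_insert_of_notMem, Finset.card_singleton] <;>
    simp [e1, e2, e3, e4, e5, e6, e7, e8, e9, e10]
  have hsub : (S : Set (ℕ × ℕ)) ⊆ {p : ℕ × ℕ | p.1 ^ 2 + A * k ^ p.2 = B} := by
    intro p hp
    simp only [S, Finset.coe_insert, Finset.coe_singleton, Set.mem_insert_iff,
      Set.mem_singleton_iff] at hp
    rcases hp with rfl | rfl | rfl | rfl | rfl <;> assumption
  have h := Set.ncard_le_ncard hsub (finite_sols hk hA)
  rw [Set.ncard_coe_finset, hS] at h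
  exact h

theorem family (t : ℕ) (ht : 1 ≤ t) (A : ℕ) (hA : 9 * A + 1 = 64 ^ (t + 1)) :
    5 ≤ N 2 A (2 ^ (18 * t + 12) * (A + 1)) ∧ 5 ≤ N 4 A (2 ^ (18 * t + 12) * (A + 1)) := by
  obtain ⟨c, hc⟩ : ∃ c, 4 ^ t = 3 * c + 1 := by
    have h : 4 ^ t % 3 = 1 := by
      rw [Nat.pow_mod]
      norm_num
    exact ⟨4 ^ t / 3, by omega⟩
  obtain ⟨d, hd⟩ : ∃ d, d = 3 * c ^ 3 + 3 * c ^ 2 + c := ⟨_, rfl⟩
  have e64 : (64 : ℕ) ^ t = (3 * c + 1) ^ 3 := by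
    rw [← hc, show (64 : ℕ) = 4 ^ 3 by norm_num, ← pow_mul, ← pow_mul, mul_comm]
  have hA' : A = 64 * d + 7 := by
    have : 9 * A + 1 = 9 * (64 * d + 7) + 1 := by
      rw [hA, pow_succ, e64, hd]
      ring
    omega
  have hA1 : 1 ≤ A := by omega
  have p18 : (2 : ℕ) ^ (18 * t + 12) = 4096 * (3 * c + 1) ^ 9 := by
    rw [← hc, pow_add, show (18 : ℕ) * t = 2 * (t * 9) by ring, pow_mul, pow_mul]
    norm_num [mul_comm]
  have p16 : (2 : ℕ) ^ (16 * t + 12) = 4096 * (3 * c + 1) ^ 8 := by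
    rw [← hc, pow_add, show (16 : ℕ) * t = 2 * (t * 8) by ring, pow_mul, pow_mul]
    norm_num [mul_comm]
  have p10 : (2 : ℕ) ^ (12 * t + 10) = 1024 * (3 * c + 1) ^ 6 := by
    rw [← hc, pow_add, show (12 : ℕ) * t = 2 * (t * 6) by ring, pow_mul, pow_mul]
    norm_num [mul_comm]
  have p8 : (2 : ℕ) ^ (12 * t + 8) = 256 * (3 * c + 1) ^ 6 := by
    rw [← hc, pow_add, show (12 : ℕ) * t = 2 * (t * 6) by ring, pow_mul, pow_mul]
    norm_num [mul_comm]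
  have q18 : (4 : ℕ) ^ (9 * t + 6) = 4096 * (3 * c + 1) ^ 9 := by
    rw [← p18, show (4 : ℕ) = 2 ^ 2 by norm_num, ← pow_mul]; congr 1; ring
  have q16 : (4 : ℕ) ^ (8 * t + 6) = 4096 * (3 * c + 1) ^ 8 := by
    rw [← p16, show (4 : ℕ) = 2 ^ 2 by norm_num, ← pow_mul]; congr 1; ring
  have q10 : (4 : ℕ) ^ (6 * t + 5) = 1024 * (3 * c + 1) ^ 6 := by
    rw [← p10, show (4 : ℕ) = 2 ^ 2 by norm_num, ← pow_mul]; congr 1; ring
  have q8 : (4 : ℕ) ^ (6 * t + 4) = 256 * (3 * c + 1) ^ 6 := by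
    rw [← p8, show (4 : ℕ) = 2 ^ 2 by norm_num, ← pow_mul]; congr 1; ring
  have g5 : (13824 * d ^ 2 + 3168 * d + 181) ^ 2 + A * 1 = 4096 * (3 * c + 1) ^ 9 * (A + 1) := by
    have : (3 * c + 1) ^ 3 = 9 * d + 1 := by rw [hd]; ring
    rw [show (3 * c + 1) ^ 9 = ((3 * c + 1) ^ 3) ^ 3 by ring, this, hA']
    ring
  have g4 : (16 * (3 * c + 1) ^ 3 * (96 * d + 11)) ^ 2 + A * (256 * (3 * c + 1) ^ 6) =
      4096 * (3 * c + 1) ^ 9 * (A + 1) := by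
    have : (3 * c + 1) ^ 3 = 9 * d + 1 := by rw [hd]; ring
    rw [show (3 * c + 1) ^ 9 = ((3 * c + 1) ^ 3) ^ 3 by ring,
      show (3 * c + 1) ^ 6 = ((3 * c + 1) ^ 3) ^ 2 by ring, this, hA']
    ring
  have g3 : (32 * (3 * c + 1) ^ 3 * (48 * d + 5)) ^ 2 + A * (1024 * (3 * c + 1) ^ 6) =
      4096 * (3 * c + 1) ^ 9 * (A + 1) := by
    have : (3 * c + 1) ^ 3 = 9 * d + 1 := by rw [hd]; ring
    rw [show (3 * c + 1) ^ 9 = ((3 * c + 1) ^ 3) ^ 3 by ring,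
      show (3 * c + 1) ^ 6 = ((3 * c + 1) ^ 3) ^ 2 by ring, this, hA']
    ring
  have g2 : (64 * (3 * c + 1) ^ 4 * (24 * c ^ 2 + 12 * c + 1)) ^ 2 +
      A * (4096 * (3 * c + 1) ^ 8) = 4096 * (3 * c + 1) ^ 9 * (A + 1) := by
    rw [hA', hd]
    ring
  have g1 : (64 * 2 ^ (9 * t)) ^ 2 + A * (4096 * (3 * c + 1) ^ 9) =
      4096 * (3 * c + 1) ^ 9 * (A + 1) := by
    have : ((2 : ℕ) ^ (9 * t)) ^ 2 = (3 * c + 1) ^ 9 := by
      rw [← hc, ← pow_mul, show (4 : ℕ) = 2 ^ 2 by norm_num, ← pow_mul, ← pow_mul]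
      congr 1
      ring
    rw [mul_pow, this]
    ring
  rw [p18]
  have G5 : (13824 * d ^ 2 + 3168 * d + 181) ^ 2 + A * 2 ^ 0 =
      4096 * (3 * c + 1) ^ 9 * (A + 1) := by
    rw [pow_zero]
    exact g5
  have G4 := g4
  have G3 := g3
  have G2 := g2
  have G1 := g1
  have K5 : (13824 * d ^ 2 + 3168 * d + 181) ^ 2 + A * 4 ^ 0 =
      4096 * (3 * c + 1) ^ 9 * (A + 1) := by
    rw [pow_zero]
    exact g5
  have K4 := g4
  have K3 := g3
  have K2 := g2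
  have K1 := g1
  rw [← p8] at G4
  rw [← p10] at G3
  rw [← p16] at G2
  rw [← q8] at K4
  rw [← q10] at K3
  rw [← q16] at K2
  have G1' : (64 * 2 ^ (9 * t)) ^ 2 + A * 2 ^ (18 * t + 12) =
      4096 * (3 * c + 1) ^ 9 * (A + 1) := by
    rw [p18]
    exact g1
  have K1' : (64 * 2 ^ (9 * t)) ^ 2 + A * 4 ^ (9 * t + 6) =
      4096 * (3 * c + 1) ^ 9 * (A + 1) := by
    rw [q18]
    exact g1
  exact ⟨five_le (by norm_num) hA1 G5 G4 G3 G2 G1' (by omega) (by omega) (by omega) (by omega),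
    five_le (by norm_num) hA1 K5 K4 K3 K2 K1' (by omega) (by omega) (by omega) (by omega)⟩

theorem exists_A (t : ℕ) : ∃ A, 9 * A + 1 = 64 ^ (t + 1) := by
  have h : 64 ^ (t + 1) % 9 = 1 := by
    rw [Nat.pow_mod]
    norm_num
  exact ⟨64 ^ (t + 1) / 9, by omega⟩

/-- The number of solutions of `x² + A kⁿ = B` can be larger than four: for each `t ≥ 1` and
`A = (64^(t+1) - 1)/9`, `B = 2^(18 t + 12) (A + 1)` it is at least five for `k = 2` and for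
`k = 4`; in particular there are infinitely many coprime pairs `(A, B)` of positive integers with at
least five solutions for `k = 2` and for `k = 4`. -/
theorem result :
    (¬ ∀ k A B : ℕ, 2 ≤ k → 1 ≤ A → 1 ≤ B → N k A B ≤ 4) ∧
    (∀ t : ℕ, 1 ≤ t →
      5 ≤ N 2 ((64 ^ (t + 1) - 1) / 9) (2 ^ (18 * t + 12) * ((64 ^ (t + 1) - 1) / 9 + 1)) ∧
      5 ≤ N 4 ((64 ^ (t + 1) - 1) / 9) (2 ^ (18 * t + 12) * ((64 ^ (t + 1) - 1) / 9 + 1))) ∧
    {p : ℕ × ℕ | 1 ≤ p.1 ∧ 1 ≤ p.2 ∧ Nat.Coprime p.1 p.2 ∧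
      5 ≤ N 2 p.1 p.2 ∧ 5 ≤ N 4 p.1 p.2}.Infinite := by
  have key : ∀ t : ℕ, 1 ≤ t →
      5 ≤ N 2 ((64 ^ (t + 1) - 1) / 9) (2 ^ (18 * t + 12) * ((64 ^ (t + 1) - 1) / 9 + 1)) ∧
      5 ≤ N 4 ((64 ^ (t + 1) - 1) / 9) (2 ^ (18 * t + 12) * ((64 ^ (t + 1) - 1) / 9 + 1)) := by
    intro t ht
    obtain ⟨A, hA⟩ := exists_A t
    have e : (64 ^ (t + 1) - 1) / 9 = A := by omega
    rw [e]
    exact family t ht A hA
  refine ⟨?_, key, ?_⟩
  · intro h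
    obtain ⟨A, hA⟩ := exists_A 1
    have h1 := (family 1 le_rfl A hA).1
    have h2 := h 2 A (2 ^ (18 * 1 + 12) * (A + 1)) (by norm_num) (by omega)
      (Nat.succ_le_of_lt (by positivity))
    omega
  · let f : ℕ → ℕ × ℕ := fun t => ((64 ^ (t + 2) - 1) / 9,
      2 ^ (18 * (t + 1) + 12) * ((64 ^ (t + 2) - 1) / 9 + 1))
    have hinj : Function.Injective f := by
      intro s t hst
      obtain ⟨A, hA⟩ := exists_A (s + 1)
      obtain ⟨A', hA'⟩ := exists_A (t + 1)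
      have h1 : (64 ^ (s + 2) - 1) / 9 = (64 ^ (t + 2) - 1) / 9 := congrArg Prod.fst hst
      have h2 : (64 : ℕ) ^ (s + 2) = 64 ^ (t + 2) := by
        have a1 : s + 1 + 1 = s + 2 := rfl
        have a2 : t + 1 + 1 = t + 2 := rfl
        rw [a1] at hA
        rw [a2] at hA'
        omega
      have h3 := Nat.pow_right_injective (le_refl 2 |>.trans (by norm_num : 2 ≤ 64)) h2
      omega
    refine (Set.infinite_range_of_injective hinj).mono ?_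
    rintro _ ⟨t, rfl⟩
    obtain ⟨A, hA⟩ := exists_A (t + 1)
    have e : (64 ^ (t + 2) - 1) / 9 = A := by
      have a1 : t + 1 + 1 = t + 2 := rfl
      rw [a1] at hA
      omega
    have hk := key (t + 1) (by omega)
    have a1 : t + 1 + 1 = t + 2 := rfl
    rw [a1] at hk hA
    have hodd : 64 ^ (t + 2) = 2 * (32 * 64 ^ (t + 1)) := by ring
    refine ⟨?_, ?_, ?_, hk.1, hk.2⟩
    · show 1 ≤ (64 ^ (t + 2) - 1) / 9
      rw [e]
      have : 64 ^ 2 ≤ 64 ^ (t + 2) := Nat.pow_le_pow_right (by norm_num) (by omega)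
      omega
    · show 1 ≤ 2 ^ (18 * (t + 1) + 12) * ((64 ^ (t + 2) - 1) / 9 + 1)
      exact Nat.succ_le_of_lt (by positivity)
    · show Nat.Coprime ((64 ^ (t + 2) - 1) / 9)
        (2 ^ (18 * (t + 1) + 12) * ((64 ^ (t + 2) - 1) / 9 + 1))
      rw [e]
      apply Nat.Coprime.mul_right
      · apply Nat.Coprime.pow_right
        rw [Nat.coprime_two_right]
        rw [Nat.odd_iff]
        omega
      · simp

end Pool.Agent.Results.MP_ca3412_nt.FiveSolutions
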